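import Pool.Agent.T2h54.PF.Final

/-!
# The smallest value of a standard p-function on `[0, 1]` given `p 1`

Let `I M` be the infimum, over all standard p-functions `p` with `p 1 = M`, of the infimum of `p`
over `[0, 1]`. Then `I M = max 0 (1 + log M)` for all `0 < M ≤ 1`; in particular the threshold
`c = inf {M : I M > 0}` equals `1 / e`, as conjectured by Davidson.

Outline. The lower bound is the inequality `p t ≤ exp (p s - 1)` for `s ≤ t`
(`T2h54.PF.pfun_bound`), obtained in the limit from an inequality for renewal sequences `u` with
first weight `q = u 1` close to one (`T2h54.PF.Ren.bound`):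
`u (s + w) ≤ u s * u w + φ (u w) / q`, with the concave function `φ z = z (1 - q - log z)` for
`z ≥ exp (-q)` and `φ z = exp (-q)` below. Its proof rests on the positivity of the renewal density
of the truncated sequence `max (u n) (exp (-q))` (`T2h54.PF.Ren.main_ind`).
The upper bound comes from processes with exponential on-periods and fixed off-periods
(`T2h54.PF.pf_at_one`, `T2h54.PF.pf_at_a`).
-/

set_option autoImplicit false

namespace Pool.Agent.Results.MP_5fed26_pr.ExactI

open T2h54.PF

/-- `I M = max 0 (1 + log M)` for all `0 < M ≤ 1`, and `c = 1 / e`. -/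
theorem result :
    (∀ M : ℝ, 0 < M → M ≤ 1 → I M = max 0 (1 + Real.log M)) ∧ c = Real.exp (-1) :=
  ⟨fun _ h0 h1 => I_value h0 h1, c_value⟩

end Pool.Agent.Results.MP_5fed26_pr.ExactI
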